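import Mathlib

/-! Lecture hall simplices satisfying the gcd condition are level. -/

set_option maxHeartbeats 400000

namespace Pool.Agent.Results.MP_aff17b_co.Level

open Set

/-- The `s`-lecture hall simplex in dimension `n = m + 1`. -/
def simplex {m : ℕ} (s : Fin (m + 1) → ℕ) : Set (Fin (m + 1) → ℝ) :=
  {x | 0 ≤ x 0 / s 0 ∧ (∀ j : Fin m, x j.castSucc / s j.castSucc ≤ x j.succ / s j.succ) ∧
    x (Fin.last m) / s (Fin.last m) ≤ 1}

/-- The cone over `P × {1}`. -/
def cone {n : ℕ} (P : Set (Fin n → ℝ)) : Set ((Fin n → ℝ) × ℝ) :=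
  {w | ∃ t : ℝ, 0 ≤ t ∧ ∃ p ∈ P, w = t • (p, (1 : ℝ))}

/-- Points with integer coordinates. -/
def IsLat {n : ℕ} (w : (Fin n → ℝ) × ℝ) : Prop := (∀ j, ∃ z : ℤ, w.1 j = z) ∧ ∃ z : ℤ, w.2 = z

/-- With `d` the least height of an interior lattice point of the cone, every interior lattice
point is an interior lattice point of height `d` plus a lattice point of the cone. -/
def IsLevel {n : ℕ} (P : Set (Fin n → ℝ)) : Prop :=
  ∃ d : ℝ, IsLeast {h | ∃ w ∈ interior (cone P), IsLat w ∧ w.2 = h} d ∧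
    ∀ w ∈ interior (cone P), IsLat w →
      ∃ u ∈ interior (cone P), IsLat u ∧ u.2 = d ∧ ∃ v ∈ cone P, IsLat v ∧ w = u + v

variable {m : ℕ} {s : Fin (m + 1) → ℕ}

lemma mem_cone (hs : ∀ j, 1 ≤ s j) (w : (Fin (m + 1) → ℝ) × ℝ) : w ∈ cone (simplex s) ↔
    0 ≤ w.1 0 / s 0 ∧ (∀ j : Fin m, w.1 j.castSucc / s j.castSucc ≤ w.1 j.succ / s j.succ) ∧
      w.1 (Fin.last m) / s (Fin.last m) ≤ w.2 := by
  constructor
  · rintro ⟨t, ht, p, ⟨h1, h2, h3⟩, rfl⟩
    simp only [Prod.smul_fst, Prod.smul_snd, Pi.smul_apply, smul_eq_mul, mul_div_assoc]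
    exact ⟨mul_nonneg ht h1, fun j => mul_le_mul_of_nonneg_left (h2 j) ht,
      mul_le_mul_of_nonneg_left h3 ht⟩
  · rintro ⟨h1, h2, h3⟩
    have hm : Monotone fun j => w.1 j / s j := Fin.monotone_iff_le_succ.2 h2
    have h4 : 0 ≤ w.2 := h1.trans ((hm (Fin.zero_le _)).trans h3)
    rcases h4.eq_or_lt with h5 | h5
    · refine ⟨0, le_rfl, 0, by simp [simplex], Prod.ext (funext fun j => ?_) (by simp [← h5])⟩
      have h6 : w.1 j / s j = 0 :=
        le_antisymm (h5 ▸ (hm (Fin.le_last j)).trans h3) (h1.trans (hm (Fin.zero_le j)))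
      have h7 : (s j : ℝ) ≠ 0 := by have := hs j; positivity
      simpa [h7] using h6
    · refine ⟨w.2, h4, w.2⁻¹ • w.1, ?_, Prod.ext (by simp [smul_smul, h5.ne']) (by simp)⟩
      have h6 : 0 ≤ w.2⁻¹ := by positivity
      simp only [simplex, mem_setOf_eq, Pi.smul_apply, smul_eq_mul, mul_div_assoc]
      refine ⟨mul_nonneg h6 h1, fun j => mul_le_mul_of_nonneg_left (h2 j) h6, ?_⟩
      rw [← inv_mul_cancel₀ h5.ne']
      exact mul_le_mul_of_nonneg_left h3 h6

lemma shift {C : Set ((Fin (m + 1) → ℝ) × ℝ)} {w : (Fin (m + 1) → ℝ) × ℝ} (hw : w ∈ interior C)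
    (e : (Fin (m + 1) → ℝ) × ℝ) : ∃ t : ℝ, 0 < t ∧ w + t • e ∈ C := by
  have h1 : Continuous fun t : ℝ => w + t • e := by fun_prop
  have h2 : ∀ᶠ t : ℝ in nhds 0, w + t • e ∈ C :=
    h1.continuousAt.eventually (by simpa using mem_interior_iff_mem_nhds.1 hw)
  obtain ⟨t, h3, h4⟩ := ((h2.filter_mono nhdsWithin_le_nhds).and
    (self_mem_nhdsWithin (a := (0 : ℝ)) (s := Ioi 0))).exists
  exact ⟨t, h4, h3⟩

lemma mem_int (hs : ∀ j, 1 ≤ s j) (w : (Fin (m + 1) → ℝ) × ℝ) : w ∈ interior (cone (simplex s)) ↔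
    0 < w.1 0 / s 0 ∧ (∀ j : Fin m, w.1 j.castSucc / s j.castSucc < w.1 j.succ / s j.succ) ∧
      w.1 (Fin.last m) / s (Fin.last m) < w.2 := by
  have hp : ∀ j, (0 : ℝ) < s j := fun j => by have := hs j; positivity
  constructor
  · intro hw
    obtain ⟨t, ht, h⟩ := shift hw (fun j => -((j : ℝ) + 1) * s j, -((m : ℝ) + 2))
    obtain ⟨h1, h2, h3⟩ := (mem_cone hs _).1 h
    simp only [Prod.fst_add, Prod.snd_add, Prod.smul_fst, Prod.smul_snd, Pi.add_apply,
      Pi.smul_apply, smul_eq_mul, add_div, mul_div_assoc, div_self (hp _).ne', Fin.val_zero,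
      Fin.val_last, Fin.val_succ, Fin.val_castSucc] at h1 h2 h3
    refine ⟨by push_cast at h1; linarith, fun j => ?_, by linarith⟩
    have := h2 j
    push_cast at this
    linarith
  · intro hw
    refine mem_interior.2 ⟨{w | 0 < w.1 0 / s 0 ∧ (∀ j : Fin m, w.1 j.castSucc / s j.castSucc <
      w.1 j.succ / s j.succ) ∧ w.1 (Fin.last m) / s (Fin.last m) < w.2},
      fun w h => (mem_cone hs w).2 ⟨h.1.le, fun j => (h.2.1 j).le, h.2.2.le⟩, ?_, hw⟩
    simp only [setOf_and, setOf_forall]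
    exact (isOpen_lt (by fun_prop) (by fun_prop)).inter ((isOpen_iInter_of_finite fun j =>
      isOpen_lt (by fun_prop) (by fun_prop)).inter (isOpen_lt (by fun_prop) (by fun_prop)))

theorem result {m : ℕ} (s : Fin (m + 1) → ℕ) (hs : ∀ j, 1 ≤ s j) (c : Fin (m + 1) → ℤ)
    (h0 : c 0 = 1) (hc : ∀ j : Fin m, c j.succ * s j.castSucc
      = c j.castSucc * s j.succ + Nat.gcd (s j.castSucc) (s j.succ)) :
    IsLevel (simplex s) := by
  have hp : ∀ j, (0 : ℝ) < s j := fun j => by have := hs j; positivity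
  have hpz : (0 : ℤ) < s (Fin.last m) := by have := hs (Fin.last m); positivity
  set d : ℤ := c (Fin.last m) / s (Fin.last m) + 1 with hd
  have c1 : ∀ j : Fin m, (c j.castSucc : ℝ) / s j.castSucc < (c j.succ : ℝ) / s j.succ := by
    intro j
    rw [div_lt_div_iff₀ (hp _) (hp _)]
    have h1 : 0 < Nat.gcd (s j.castSucc) (s j.succ) := Nat.gcd_pos_of_pos_left _ (hs _)
    have h2 : c j.castSucc * s j.succ < c j.succ * s j.castSucc := by rw [hc]; omega
    exact_mod_cast h2
  have c2 : (c (Fin.last m) : ℝ) / s (Fin.last m) < d := by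
    rw [div_lt_iff₀ (hp _)]
    exact_mod_cast Int.lt_ediv_add_one_mul_self _ hpz
  have key : ∀ w ∈ interior (cone (simplex s)), IsLat w →
      (0 ≤ (w.1 0 - c 0) / s 0 ∧ Monotone fun j => (w.1 j - c j) / s j) ∧ (d : ℝ) ≤ w.2 := by
    rintro w hw ⟨h1, h, h2⟩
    choose x hx using h1
    obtain ⟨h3, h4, h5⟩ := (mem_int hs w).1 hw
    have k1 : 0 ≤ (w.1 0 - c 0) / s 0 := by
      refine div_nonneg ?_ (hp _).le
      rw [hx, div_pos_iff_of_pos_right (hp _)] at h3
      have : (1 : ℤ) ≤ x 0 := by exact_mod_cast h3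
      rw [hx, h0, sub_nonneg]
      exact_mod_cast this
    have k2 : Monotone fun j => (w.1 j - c j) / s j := by
      refine Fin.monotone_iff_le_succ.2 fun j => ?_
      have h6 := h4 j
      rw [hx, hx, div_lt_div_iff₀ (hp _) (hp _)] at h6
      have h7 : x j.castSucc * s j.succ < x j.succ * s j.castSucc := by exact_mod_cast h6
      have h8 : ((Nat.gcd (s j.castSucc) (s j.succ) : ℕ) : ℤ) ∣
          x j.succ * s j.castSucc - x j.castSucc * s j.succ :=
        dvd_sub (Dvd.dvd.mul_left (by exact_mod_cast Nat.gcd_dvd_left _ _) _)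
          (Dvd.dvd.mul_left (by exact_mod_cast Nat.gcd_dvd_right _ _) _)
      have h9 := Int.le_of_dvd (by omega) h8
      have h10 : (x j.castSucc - c j.castSucc) * s j.succ ≤ (x j.succ - c j.succ) * s j.castSucc := by
        have := hc j
        linarith
      rw [hx, hx, div_le_div_iff₀ (hp _) (hp _)]
      exact_mod_cast h10
    refine ⟨⟨k1, k2⟩, ?_⟩
    have k3 := k1.trans (k2 (Fin.zero_le (Fin.last m)))
    simp only [sub_div] at k3
    have k4 : (c (Fin.last m) : ℝ) / s (Fin.last m) < h := by linarith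
    rw [div_lt_iff₀ (hp _)] at k4
    have k5 : c (Fin.last m) < h * s (Fin.last m) := by exact_mod_cast k4
    have k6 := Int.ediv_lt_of_lt_mul hpz k5
    rw [h2]
    exact_mod_cast (by omega : d ≤ h)
  refine ⟨d, ⟨⟨(fun j => c j, d), (mem_int hs _).2 ⟨?_, c1, c2⟩, ⟨fun j => ⟨_, rfl⟩, _, rfl⟩, rfl⟩, ?_⟩, ?_⟩
  · simp only [h0]
    exact div_pos (by simp) (hp _)
  · rintro _ ⟨w, hw, hl, rfl⟩
    exact (key w hw hl).2
  · intro w hw hl
    obtain ⟨⟨k1, k2⟩, k3⟩ := key w hw hl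
    obtain ⟨h1, h, h2⟩ := hl
    choose x hx using h1
    obtain ⟨-, -, h5⟩ := (mem_int hs w).1 hw
    have e1 : ∀ j, (c j + max (w.1 j - c j - (w.2 - d) * s j) 0) / s j
        = c j / s j + max ((w.1 j - c j) / s j - (w.2 - d)) 0 := fun j => by
      rw [add_div, ← max_div_div_right (hp j).le, sub_div _ (_ * _), mul_div_cancel_right₀ _ (hp j).ne',
        zero_div]
    have e2 : ∀ j, min (w.1 j - c j) ((w.2 - d) * s j) / s j
        = min ((w.1 j - c j) / s j) (w.2 - d) := fun j => by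
      rw [← min_div_div_right (hp j).le, mul_div_cancel_right₀ _ (hp j).ne']
    refine ⟨(fun j => c j + max (w.1 j - c j - (w.2 - d) * s j) 0, d), (mem_int hs _).2 ⟨?_, ?_, ?_⟩,
      ⟨fun j => ⟨c j + max (x j - c j - (h - d) * s j) 0, by push_cast; rw [← hx, ← h2]⟩, _, rfl⟩, rfl,
      (fun j => min (w.1 j - c j) ((w.2 - d) * s j), w.2 - d), (mem_cone hs _).2 ⟨?_, ?_, ?_⟩,
      ⟨fun j => ⟨min (x j - c j) ((h - d) * s j), by push_cast; rw [← hx, ← h2]⟩, h - d, by push_cast; rw [← h2]⟩, ?_⟩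
    · simp only [e1]
      exact add_pos_of_pos_of_nonneg (div_pos (by simp [h0]) (hp _)) (le_max_right _ _)
    · intro j
      simp only [e1]
      exact add_lt_add_of_lt_of_le (c1 j)
        (max_le_max (sub_le_sub_right (k2 j.castSucc_lt_succ.le) _) le_rfl)
    · simp only [e1]
      rcases le_total ((w.1 (Fin.last m) - c (Fin.last m)) / s (Fin.last m) - (w.2 - d)) 0 with h6 | h6
      · rw [max_eq_right h6]; linarith
      · rw [max_eq_left h6, sub_div]; linarith
    · simp only [e2]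
      exact le_min k1 (by linarith)
    · intro j
      simp only [e2]
      exact min_le_min (k2 j.castSucc_lt_succ.le) le_rfl
    · simp only [e2]
      exact min_le_right _ _
    · refine Prod.ext (funext fun j => ?_) (by simp)
      change w.1 j = c j + max (w.1 j - c j - (w.2 - d) * s j) 0 + min (w.1 j - c j) ((w.2 - d) * s j)
      rcases le_total (w.1 j - c j) ((w.2 - d) * s j) with h6 | h6
      · rw [min_eq_left h6, max_eq_right (by linarith)]; ring
      · rw [min_eq_right h6, max_eq_left (by linarith)]; ring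

end Pool.Agent.Results.MP_aff17b_co.Level
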